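import Mathlib

namespace Pool.Agent.Work.MP_68df70_lc

/-- `Represents N b f g` says that `f / g = ∑ b_i N^i` in the ring `ℤ_N` of `N`-adic integers,
i.e. that `g * (b_0 + b_1 N + ⋯ + b_{k-1} N^(k-1)) ≡ f (mod N^k)` for every `k`. -/
def Represents (N : ℕ) (b : ℕ → Fin N) (f g : ℤ) : Prop :=
  ∀ k : ℕ, (N : ℤ) ^ k ∣ g * (∑ i ∈ Finset.range k, ((b i : ℕ) : ℤ) * (N : ℤ) ^ i) - f

/-- The `N`-adic complexity of an infinite `N`-ary sequence `b`: the number
`log_N max(|f|,|g|)`, where `f / g` (`g > 0`, `gcd(f,g) = 1`) is the rational number equal to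
`∑ b_i N^i` in `ℤ_N`, and `⊤` (that is, `∞`) if there is no such rational number. -/
noncomputable def seqComplexity (N : ℕ) (b : ℕ → Fin N) : EReal :=
  ⨅ (f : ℤ) (g : ℤ) (_ : 0 < g) (_ : Int.gcd f g = 1) (_ : Represents N b f g),
    ((Real.logb N (max |(f : ℝ)| |(g : ℝ)|) : ℝ) : EReal)

/-- The `N`-adic complexity of a finite `N`-ary sequence `a = (a_0, …, a_{n-1})`: the minimum of
the complexities of all infinite `N`-ary sequences `b` extending `a`. -/
noncomputable def finComplexity (N n : ℕ) (a : Fin n → Fin N) : EReal :=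
  ⨅ (b : ℕ → Fin N) (_ : ∀ i : Fin n, b i = a i), seqComplexity N b

/-- `E_n^fin`: the average of the `N`-adic complexity over all `N^n` finite `N`-ary sequences of
length `n` (for `N ≥ 2` each summand is a real number). -/
noncomputable def avgComplexity (N n : ℕ) : ℝ :=
  (∑ a : Fin n → Fin N, (finComplexity N n a).toReal) / (N : ℝ) ^ n

end Pool.Agent.Work.MP_68df70_lc
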