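import Mathlib
import Pool.Agent.Work.MP_68df70_lc.Defs

namespace Pool.Agent.Work.MP_68df70_lc

open Finset

/-- Every fraction `f / g` with `g` coprime to `N` has an `N`-adic expansion. -/
theorem exists_expansion (N : ℕ) (hN : 2 ≤ N) (f g : ℤ) (hg : IsCoprime g (N : ℤ)) :
    ∃ b : ℕ → Fin N, Represents N b f g := by
  obtain ⟨u, v, huv⟩ := hg
  have hNpos : (0 : ℤ) < N := by exact_mod_cast (by omega : 0 < N)
  -- the digit
  let dig : ℤ → ℤ := fun x => (x * u) % (N : ℤ)
  have hdig0 : ∀ x, 0 ≤ dig x := fun x => Int.emod_nonneg _ hNpos.ne'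
  have hdig1 : ∀ x, dig x < N := fun x => Int.emod_lt_of_pos _ hNpos
  have hdiv : ∀ x, (N : ℤ) ∣ x - g * dig x := by
    intro x
    have h1 : (N : ℤ) ∣ x * u - dig x := Int.dvd_self_sub_emod
    have h2 : x - g * dig x = g * (x * u - dig x) + (x * v) * N := by
      have : x = x * (u * g + v * N) := by rw [huv]; ring
      linear_combination this
    rw [h2]
    exact dvd_add (h1.mul_left _) (dvd_mul_left _ _)
  let nxt : ℤ → ℤ := fun x => (x - g * dig x) / (N : ℤ)
  have hnxt : ∀ x, (N : ℤ) * nxt x = x - g * dig x := fun x => Int.mul_ediv_cancel' (hdiv x)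
  let F : ℕ → ℤ := fun k => nxt^[k] f
  have hF0 : F 0 = f := rfl
  have hFs : ∀ k, F (k + 1) = nxt (F k) := fun k => Function.iterate_succ_apply' _ _ _
  let b : ℕ → Fin N := fun k => ⟨(dig (F k)).toNat, by
    have := hdig1 (F k)
    have h0 := hdig0 (F k)
    omega⟩
  have hb : ∀ k, (((b k : Fin N) : ℕ) : ℤ) = dig (F k) := by
    intro k
    show (((dig (F k)).toNat : ℕ) : ℤ) = dig (F k)
    exact Int.toNat_of_nonneg (hdig0 _)
  have key : ∀ k, g * (∑ i ∈ range k, ((b i : ℕ) : ℤ) * (N : ℤ) ^ i) = f - (N : ℤ) ^ k * F k := by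
    intro k
    induction k with
    | zero => simp [hF0]
    | succ k ih =>
      rw [sum_range_succ, mul_add, ih, hb k, hFs k, pow_succ]
      linear_combination (N : ℤ) ^ k * hnxt (F k)
  refine ⟨b, fun k => ?_⟩
  rw [key k]
  exact ⟨-F k, by ring⟩

/-- The integer encoded by a finite digit string. -/
def enc {N n : ℕ} (a : Fin n → Fin N) : ℕ := (finFunctionFinEquiv a : ℕ)

theorem enc_lt {N n : ℕ} (a : Fin n → Fin N) : enc a < N ^ n := (finFunctionFinEquiv a).2

theorem enc_eq {N n : ℕ} (a : Fin n → Fin N) :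
    enc a = ∑ i : Fin n, (a i : ℕ) * N ^ (i : ℕ) := finFunctionFinEquiv_apply a

theorem sum_range_eq_enc {N n : ℕ} (b : ℕ → Fin N) :
    ∑ i ∈ range n, ((b i : ℕ) : ℤ) * (N : ℤ) ^ i = (enc (fun i : Fin n => b i) : ℤ) := by
  rw [enc_eq]
  push_cast
  rw [← Fin.sum_univ_eq_sum_range (fun i => ((b i : ℕ) : ℤ) * (N : ℤ) ^ i)]

theorem enc_injective {N n : ℕ} : Function.Injective (enc : (Fin n → Fin N) → ℕ) := by
  intro a b h
  exact finFunctionFinEquiv.injective (Fin.ext h)

/-- admissible pairs for the residue `A` modulo `T`. -/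
def Adm (N T : ℕ) (A : ℕ) (f g : ℤ) : Prop :=
  0 < g ∧ IsCoprime g (N : ℤ) ∧ (T : ℤ) ∣ g * A - f

/-- the integer `M(A)` with `λ = log_N M(A)`. -/
noncomputable def minM (N T A : ℕ) : ℕ :=
  sInf {m : ℕ | ∃ f g : ℤ, Adm N T A f g ∧ m = max f.natAbs g.natAbs}

theorem minM_set_nonempty (N T A : ℕ) :
    {m : ℕ | ∃ f g : ℤ, Adm N T A f g ∧ m = max f.natAbs g.natAbs}.Nonempty :=
  ⟨_, A, 1, ⟨one_pos, isCoprime_one_left, by simp⟩, rfl⟩

theorem minM_mem (N T A : ℕ) :
    ∃ f g : ℤ, Adm N T A f g ∧ minM N T A = max f.natAbs g.natAbs :=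
  Nat.sInf_mem (minM_set_nonempty N T A)

theorem minM_le {N T A : ℕ} {f g : ℤ} (h : Adm N T A f g) :
    minM N T A ≤ max f.natAbs g.natAbs :=
  Nat.sInf_le ⟨f, g, h, rfl⟩

theorem minM_pos (N T A : ℕ) : 0 < minM N T A := by
  obtain ⟨f, g, h, h2⟩ := minM_mem N T A
  rw [h2]
  have := h.1
  exact lt_max_of_lt_right (by omega)

theorem minM_mem_coprime (N n A : ℕ) :
    ∃ f g : ℤ, Adm N (N ^ n) A f g ∧ Int.gcd f g = 1 ∧
      minM N (N ^ n) A = max f.natAbs g.natAbs := by
  obtain ⟨f, g, h, h2⟩ := minM_mem N (N ^ n) A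
  obtain ⟨hg0, hgN, hT⟩ := h
  have hd : 0 < Int.gcd f g := Int.gcd_pos_of_ne_zero_right _ hg0.ne'
  obtain ⟨f', hf'⟩ := Int.gcd_dvd_left f g
  obtain ⟨g', hg'⟩ := Int.gcd_dvd_right f g
  have hcop : Int.gcd f' g' = 1 := by
    have h4 : ∀ d : ℕ, f = d * f' → g = d * g' → Int.gcd f g = d * Int.gcd f' g' := by
      intro d h5 h6
      rw [h5, h6, Int.gcd_mul_left]
      simp
    have h3 := h4 _ hf' hg'
    exact Nat.eq_of_mul_eq_mul_left hd (by rw [mul_one]; exact h3.symm)
  generalize Int.gcd f g = d at *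
  have hd' : (0 : ℤ) < d := by exact_mod_cast hd
  have hg'0 : 0 < g' := by
    rw [hg'] at hg0
    exact (mul_pos_iff_of_pos_left hd').1 hg0
  have hdN : IsCoprime (d : ℤ) (N : ℤ) := by
    rw [hg'] at hgN
    exact hgN.of_mul_left_left
  have hg'N : IsCoprime g' (N : ℤ) := by
    rw [hg'] at hgN
    exact hgN.of_mul_left_right
  have hT' : ((N ^ n : ℕ) : ℤ) ∣ g' * A - f' := by
    have h3 : g * A - f = d * (g' * A - f') := by rw [hf', hg']; ring
    rw [h3] at hT
    refine IsCoprime.dvd_of_dvd_mul_left ?_ hT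
    push_cast
    exact (hdN.pow_right).symm
  have hadm : Adm N (N ^ n) A f' g' := ⟨hg'0, hg'N, hT'⟩
  refine ⟨f', g', hadm, hcop, le_antisymm (minM_le hadm) ?_⟩
  rw [h2, hf', hg', Int.natAbs_mul, Int.natAbs_mul, Int.natAbs_natCast]
  exact max_le_max (Nat.le_mul_of_pos_left _ hd) (Nat.le_mul_of_pos_left _ hd)

theorem finComplexity_eq (N : ℕ) (hN : 2 ≤ N) (n : ℕ) (a : Fin n → Fin N) :
    finComplexity N n a = ((Real.logb N (minM N (N ^ n) (enc a)) : ℝ) : EReal) := by
  have hN1 : (1 : ℝ) < N := by exact_mod_cast (by omega : 1 < N)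
  apply le_antisymm
  · obtain ⟨f, g, hadm, hcop, hM⟩ := minM_mem_coprime N n (enc a)
    obtain ⟨hg0, hgN, hT⟩ := hadm
    obtain ⟨b, hb⟩ := exists_expansion N hN f g hgN
    have hba : ∀ i : Fin n, b i = a i := by
      have h1 := hb n
      rw [sum_range_eq_enc] at h1
      have h2 : ((N ^ n : ℕ) : ℤ) ∣ g * ((enc (fun i : Fin n => b i) : ℤ) - enc a) := by
        have : g * ((enc (fun i : Fin n => b i) : ℤ) - enc a)
          = (g * (enc (fun i : Fin n => b i) : ℤ) - f) - (g * (enc a : ℤ) - f) := by ring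
        rw [this]
        refine dvd_sub ?_ hT
        push_cast
        exact h1
      have h3 : ((N ^ n : ℕ) : ℤ) ∣ ((enc (fun i : Fin n => b i) : ℤ) - enc a) := by
        refine IsCoprime.dvd_of_dvd_mul_left ?_ h2
        push_cast
        exact (hgN.pow_right).symm
      have h4 : enc (fun i : Fin n => b i) = enc a := by
        have e1 := enc_lt (fun i : Fin n => b i)
        have e2 := enc_lt a
        have h5 : ((enc (fun i : Fin n => b i) : ℤ) - enc a) = 0 := by
          refine Int.eq_zero_of_abs_lt_dvd h3 ?_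
          rw [abs_lt]
          constructor <;> omega
        omega
      intro i
      exact congrFun (enc_injective h4) i
    refine (iInf₂_le b hba).trans ?_
    refine (iInf₂_le f g).trans ?_
    refine (iInf₂_le hg0 hcop).trans ?_
    refine (iInf_le _ hb).trans ?_
    rw [hM]
    push_cast
    rw [Nat.cast_natAbs, Nat.cast_natAbs]
    push_cast
    exact le_rfl
  · refine le_iInf₂ fun b hb => ?_
    refine le_iInf₂ fun f g => ?_
    refine le_iInf₂ fun hg0 hcop => ?_
    refine le_iInf fun hrep => ?_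
    have hcop' : IsCoprime f g := Int.isCoprime_iff_gcd_eq_one.2 hcop
    have hgN : IsCoprime g (N : ℤ) := by
      obtain ⟨c, hc⟩ := hrep 1
      rw [pow_one] at hc
      have hf : f = g * (∑ i ∈ range 1, ((b i : ℕ) : ℤ) * (N : ℤ) ^ i) + N * (-c) := by
        linear_combination -hc
      rw [hf] at hcop'
      have h1 : IsCoprime ((N : ℤ) * (-c)) g := by
        have := (IsCoprime.add_mul_left_left_iff (x := (N : ℤ) * (-c)) (y := g)
          (z := (∑ i ∈ range 1, ((b i : ℕ) : ℤ) * (N : ℤ) ^ i))).1 (by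
            rwa [add_comm] at hcop')
        exact this
      exact h1.of_mul_left_left.symm
    have hadm : Adm N (N ^ n) (enc a) f g := by
      refine ⟨hg0, hgN, ?_⟩
      have h1 := hrep n
      rw [sum_range_eq_enc] at h1
      have h2 : (fun i : Fin n => b i) = a := funext hb
      rw [h2] at h1
      push_cast
      exact h1
    have h1 := minM_le hadm
    rw [EReal.coe_le_coe_iff]
    apply Real.logb_le_logb_of_le hN1
    · exact_mod_cast minM_pos _ _ _
    · have h2 : (minM N (N ^ n) (enc a) : ℝ) ≤ ((max f.natAbs g.natAbs : ℕ) : ℝ) := by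
        exact_mod_cast h1
      refine h2.trans (le_of_eq ?_)
      push_cast
      rw [Nat.cast_natAbs, Nat.cast_natAbs]
      push_cast
      rfl

/-- The average as a sum over residues. -/
theorem avgComplexity_eq (N : ℕ) (hN : 2 ≤ N) (n : ℕ) :
    avgComplexity N n =
      (∑ A ∈ range (N ^ n), Real.log (minM N (N ^ n) A)) / Real.log N / (N : ℝ) ^ n := by
  unfold avgComplexity
  congr 1
  rw [sum_div]
  have h1 : ∑ a : Fin n → Fin N, (finComplexity N n a).toReal =
      ∑ a : Fin n → Fin N, Real.logb N (minM N (N ^ n) (enc a)) := by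
    refine sum_congr rfl fun a _ => ?_
    rw [finComplexity_eq N hN n a, EReal.toReal_coe]
  rw [h1, ← Fin.sum_univ_eq_sum_range (fun A => Real.log (minM N (N ^ n) A) / Real.log N)]
  exact (finFunctionFinEquiv (m := N) (n := n)).sum_comp
    (fun A : Fin (N ^ n) => Real.logb N (minM N (N ^ n) A))

end Pool.Agent.Work.MP_68df70_lc
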