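import Mathlib
import Pool.Agent.Work.MP_68df70_lc.Expansion

namespace Pool.Agent.Work.MP_68df70_lc

open Finset

theorem eq_of_dvd_sub {T A A' : ℕ} (hA : A < T) (hA' : A' < T) (h : (T : ℤ) ∣ (A : ℤ) - A') :
    A = A' := by
  have : (A : ℤ) - A' = 0 := by
    refine Int.eq_zero_of_abs_lt_dvd h ?_
    rw [abs_lt]
    constructor <;> omega
  omega

/-- At most `m (2 m + 1)` residues have an admissible pair of height at most `m`. -/
theorem count_minM (N n m : ℕ) :
    ((range (N ^ n)).filter (fun A => minM N (N ^ n) A ≤ m)).card ≤ m * (2 * m + 1) := by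
  choose f g hadm hM using fun A => minM_mem N (N ^ n) A
  have hmaps : ∀ A ∈ (range (N ^ n)).filter (fun A => minM N (N ^ n) A ≤ m),
      (g A, f A) ∈ (Icc (1 : ℤ) m) ×ˢ (Icc (-(m : ℤ)) m) := by
    intro A hA
    rw [mem_filter] at hA
    have h1 := hA.2
    rw [hM A] at h1
    have h2 := (hadm A).1
    rw [mem_product, mem_Icc, mem_Icc]
    have h3 : (f A).natAbs ≤ m := (le_max_left _ _).trans h1
    have h4 : (g A).natAbs ≤ m := (le_max_right _ _).trans h1
    simp only
    omega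
  have hinj : Set.InjOn (fun A => (g A, f A))
      ((range (N ^ n)).filter (fun A => minM N (N ^ n) A ≤ m) : Set ℕ) := by
    intro A hA A' hA' heq
    simp only [Prod.mk.injEq] at heq
    rw [mem_coe, mem_filter, mem_range] at hA hA'
    obtain ⟨-, hgN, hT⟩ := hadm A
    obtain ⟨-, -, hT'⟩ := hadm A'
    rw [← heq.1, ← heq.2] at hT'
    have h1 : ((N ^ n : ℕ) : ℤ) ∣ g A * ((A : ℤ) - A') := by
      have h2 : g A * ((A : ℤ) - A') = (g A * A - f A) - (g A * A' - f A) := by ring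
      rw [h2]
      exact dvd_sub hT hT'
    have h3 : ((N ^ n : ℕ) : ℤ) ∣ ((A : ℤ) - A') := by
      refine IsCoprime.dvd_of_dvd_mul_left ?_ h1
      push_cast
      exact (hgN.pow_right).symm
    exact eq_of_dvd_sub hA.1 hA'.1 h3
  refine (card_le_card_of_injOn _ hmaps hinj).trans ?_
  rw [card_product, Int.card_Icc, Int.card_Icc]
  apply le_of_eq
  congr 1 <;> omega

/-- height of the shortest nonzero vector in the lattice `{(f,g) : f ≡ g A mod T}`. -/
noncomputable def minV (T A : ℕ) : ℕ :=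
  sInf {m : ℕ | ∃ f g : ℤ, (f ≠ 0 ∨ g ≠ 0) ∧ (T : ℤ) ∣ g * A - f ∧ m = max f.natAbs g.natAbs}

theorem minV_mem (T A : ℕ) :
    ∃ f g : ℤ, (f ≠ 0 ∨ g ≠ 0) ∧ (T : ℤ) ∣ g * A - f ∧ minV T A = max f.natAbs g.natAbs :=
  Nat.sInf_mem (s := {m : ℕ | ∃ f g : ℤ, (f ≠ 0 ∨ g ≠ 0) ∧ (T : ℤ) ∣ g * A - f ∧
    m = max f.natAbs g.natAbs}) ⟨_, A, 1, Or.inr one_ne_zero, by simp, rfl⟩

theorem minV_le {T A : ℕ} {f g : ℤ} (h : f ≠ 0 ∨ g ≠ 0) (h2 : (T : ℤ) ∣ g * A - f) :
    minV T A ≤ max f.natAbs g.natAbs :=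
  Nat.sInf_le ⟨f, g, h, h2, rfl⟩

theorem minV_pos (T A : ℕ) : 0 < minV T A := by
  obtain ⟨f, g, h, -, h2⟩ := minV_mem T A
  rw [h2]
  rcases h with h | h
  · exact lt_max_of_lt_left (by omega)
  · exact lt_max_of_lt_right (by omega)

/-- if the shortest vector is shorter than `T`, it can be taken with `g > 0`. -/
theorem minV_mem_pos {T A : ℕ} (h : minV T A < T) :
    ∃ f g u : ℤ, 0 < g ∧ g * A = f + T * u ∧ minV T A = max f.natAbs g.natAbs := by
  obtain ⟨f, g, h0, ⟨u, hu⟩, h2⟩ := minV_mem T A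
  have hg : g ≠ 0 := by
    rintro rfl
    have hf : f ≠ 0 := by simpa using h0
    have h3 : (T : ℤ) ∣ f := ⟨-u, by linear_combination -hu⟩
    have h4 := Int.natAbs_dvd_natAbs.2 h3
    have h5 := Nat.le_of_dvd (by omega) h4
    have h6 : f.natAbs ≤ minV T A := by rw [h2]; exact le_max_left _ _
    simp at h5
    omega
  rcases lt_or_gt_of_ne hg with h3 | h3
  · exact ⟨-f, -g, -u, by omega, by linear_combination -hu, by
      rw [Int.natAbs_neg, Int.natAbs_neg]; exact h2⟩
  · exact ⟨f, g, u, h3, by linear_combination hu, h2⟩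

theorem sum_box_le (m : ℕ) : ∑ g ∈ Icc 1 m, g * (2 * m / g + 1) ≤ m * (3 * m) := by
  calc ∑ g ∈ Icc 1 m, g * (2 * m / g + 1) ≤ ∑ g ∈ Icc 1 m, 3 * m := by
        refine sum_le_sum fun g hg => ?_
        rw [mem_Icc] at hg
        have h1 : g * (2 * m / g) ≤ 2 * m := Nat.mul_div_le _ _
        calc g * (2 * m / g + 1) = g * (2 * m / g) + g := by ring
          _ ≤ 2 * m + m := by omega
          _ = 3 * m := by ring
    _ = m * (3 * m) := by rw [sum_const, Nat.card_Icc]; simp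

/-- At most `3 m²` residues have a nonzero lattice vector of height at most `m`. -/
theorem count_minV (T m : ℕ) (hm : 1 ≤ m) :
    ((range T).filter (fun A => minV T A ≤ m)).card ≤ m * (3 * m) := by
  by_cases hmT : T ≤ m
  · calc ((range T).filter (fun A => minV T A ≤ m)).card ≤ (range T).card := card_filter_le _ _
      _ = T := card_range T
      _ ≤ m := hmT
      _ ≤ m * (3 * m) := by nlinarith
  push Not at hmT
  have hex : ∀ A, ∃ f g u : ℤ, A ∈ (range T).filter (fun A => minV T A ≤ m) →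
      0 < g ∧ g * A = f + T * u ∧ minV T A = max f.natAbs g.natAbs := by
    intro A
    by_cases hA : A ∈ (range T).filter (fun A => minV T A ≤ m)
    · rw [mem_filter] at hA
      obtain ⟨f, g, u, h⟩ := minV_mem_pos (lt_of_le_of_lt hA.2 hmT)
      exact ⟨f, g, u, fun _ => h⟩
    · exact ⟨0, 0, 0, fun h => absurd h hA⟩
  choose f g u h using hex
  let U : Finset (Σ _ : ℕ, ℕ × ℕ) := (Icc 1 m).sigma (fun g => range g ×ˢ range (2 * m / g + 1))
  let φ : ℕ → (Σ _ : ℕ, ℕ × ℕ) := fun A =>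
    ⟨(g A).toNat, ((u A % g A).toNat, ((f A + m) / g A).toNat)⟩
  have hbd : ∀ A ∈ (range T).filter (fun A => minV T A ≤ m),
      0 < g A ∧ g A ≤ m ∧ -(m : ℤ) ≤ f A ∧ f A ≤ m := by
    intro A hA
    obtain ⟨h1, h2, h3⟩ := h A hA
    rw [mem_filter] at hA
    have h4 := hA.2
    rw [h3] at h4
    have h5 : (f A).natAbs ≤ m := (le_max_left _ _).trans h4
    have h6 : (g A).natAbs ≤ m := (le_max_right _ _).trans h4
    omega
  have hmaps : ∀ A ∈ (range T).filter (fun A => minV T A ≤ m), φ A ∈ U := by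
    intro A hA
    obtain ⟨h1, h2, h3, h4⟩ := hbd A hA
    simp only [φ, U, mem_sigma, mem_product, mem_range, mem_Icc]
    have h5 := Int.emod_nonneg (u A) h1.ne'
    have h6 := Int.emod_lt_of_pos (u A) h1
    refine ⟨by omega, by omega, ?_⟩
    rw [Nat.lt_succ_iff]
    have h7 : (f A + m) / g A ≤ (2 * m : ℤ) / g A := Int.ediv_le_ediv h1 (by omega)
    have h8 : ((2 * m / (g A).toNat : ℕ) : ℤ) = (2 * m : ℤ) / g A := by
      push_cast
      rw [Int.toNat_of_nonneg h1.le]
    have h9 : (((f A + m) / g A).toNat : ℤ) ≤ ((2 * m / (g A).toNat : ℕ) : ℤ) := by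
      rw [h8, Int.toNat_of_nonneg (Int.ediv_nonneg (by omega) h1.le)]
      exact h7
    exact_mod_cast h9
  have hinj : Set.InjOn φ ((range T).filter (fun A => minV T A ≤ m) : Set ℕ) := by
    intro A hA A' hA' heq
    rw [mem_coe] at hA hA'
    obtain ⟨h1, h2, h3, h4⟩ := hbd A hA
    obtain ⟨h1', h2', h3', h4'⟩ := hbd A' hA'
    simp only [φ, Sigma.mk.injEq, heq_eq_eq, Prod.mk.injEq] at heq
    obtain ⟨e1, e2, e3⟩ := heq
    have hg : g A = g A' := by omega
    have hu : u A % g A = u A' % g A := by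
      have h5 := Int.emod_nonneg (u A) h1.ne'
      have h6 := Int.emod_nonneg (u A') h1'.ne'
      rw [← hg] at h6 e2
      omega
    have hq : (f A + m) / g A = (f A' + m) / g A := by
      have h5 : 0 ≤ (f A + m) / g A := Int.ediv_nonneg (by omega) h1.le
      have h6 : 0 ≤ (f A' + m) / g A := Int.ediv_nonneg (by omega) h1.le
      rw [← hg] at e3
      omega
    obtain ⟨-, k1, -⟩ := h A hA
    obtain ⟨-, k2, -⟩ := h A' hA'
    rw [← hg] at k2
    obtain ⟨k, hk⟩ : g A ∣ u A - u A' := (Int.emod_eq_emod_iff_emod_sub_eq_zero.1 hu) |>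
      Int.dvd_of_emod_eq_zero
    have hf : f A = f A' := by
      have h5 : g A ∣ (f A + m) - (f A' + m) :=
        ⟨(A : ℤ) - A' - T * k, by linear_combination k2 - k1 - T * hk⟩
      have h6 : (f A + m) % g A = (f A' + m) % g A :=
        Int.emod_eq_emod_iff_emod_sub_eq_zero.2 (Int.emod_eq_zero_of_dvd h5)
      have h7 := Int.emod_add_mul_ediv (f A + m) (g A)
      have h8 := Int.emod_add_mul_ediv (f A' + m) (g A)
      rw [hq, h6] at h7
      omega
    have h9 : g A * ((A : ℤ) - A') = g A * (T * k) := by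
      rw [hf] at k1
      linear_combination k1 - k2 + T * hk
    have h10 : (A : ℤ) - A' = T * k := mul_left_cancel₀ h1.ne' h9
    rw [mem_filter, mem_range] at hA hA'
    exact eq_of_dvd_sub hA.1 hA'.1 ⟨k, h10⟩
  refine (card_le_card_of_injOn φ hmaps hinj).trans ?_
  rw [card_sigma]
  refine le_trans (le_of_eq ?_) (sum_box_le m)
  refine sum_congr rfl fun g _ => ?_
  rw [card_product, card_range, card_range]

end Pool.Agent.Work.MP_68df70_lc
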