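import Mathlib

namespace Pool.Agent.Work.MP_68df70_lc

open Finset

theorem log_sub_log_le_sum (a : ℕ) (ha : 1 ≤ a) (r : ℕ) (har : a ≤ r) :
    Real.log r - Real.log a ≤ ∑ m ∈ Ico a r, (1 : ℝ) / m := by
  induction r, har using Nat.le_induction with
  | base => simp
  | succ r har ih =>
    rw [sum_Ico_succ_top har]
    have hr : (0 : ℝ) < r := by exact_mod_cast (by omega : 0 < r)
    have h1 : Real.log ((r + 1 : ℕ) : ℝ) - Real.log r ≤ 1 / r := by
      rw [← Real.log_div (by positivity) hr.ne']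
      have h2 := Real.log_le_sub_one_of_pos (x := ((r + 1 : ℕ) : ℝ) / r) (by positivity)
      refine h2.trans (le_of_eq ?_)
      push_cast
      field_simp
      ring
    linarith

theorem pointwise (M : ℕ) (hM : 1 ≤ M) (R : ℝ) (r : ℕ) (hr : 1 ≤ r) (hrR : (r : ℝ) ≤ R)
    (hRr : R < r + 1) :
    Real.log R - Real.log M ≤ ∑ m ∈ Ico 1 r, (if M ≤ m then (1 : ℝ) / m else 0)
      + (if M ≤ r then (R - r) / r else 0) := by
  have hr0 : (0 : ℝ) < r := by exact_mod_cast (by omega : 0 < r)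
  have hR0 : 0 < R := hr0.trans_le hrR
  by_cases h : M ≤ r
  · rw [if_pos h]
    have h1 : Real.log R - Real.log r ≤ (R - r) / r := by
      rw [← Real.log_div hR0.ne' hr0.ne']
      have h2 := Real.log_le_sub_one_of_pos (x := R / r) (by positivity)
      refine h2.trans (le_of_eq ?_)
      field_simp
    have h2 := log_sub_log_le_sum M hM r h
    have h3 : ∑ m ∈ Ico 1 r, (if M ≤ m then (1 : ℝ) / m else 0) = ∑ m ∈ Ico M r, (1 : ℝ) / m := by
      rw [← sum_filter]
      congr 1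
      ext m
      simp only [mem_filter, mem_Ico]
      omega
    rw [h3]
    linarith
  · rw [if_neg h]
    have h1 : ∑ m ∈ Ico 1 r, (if M ≤ m then (1 : ℝ) / m else 0) = 0 := by
      apply sum_eq_zero
      intro m hm
      rw [mem_Ico] at hm
      rw [if_neg (by omega)]
    rw [h1]
    have h2 : R ≤ M := by
      have : (r : ℝ) + 1 ≤ M := by exact_mod_cast (by omega : r + 1 ≤ M)
      linarith
    have h3 := Real.log_le_log hR0 h2
    linarith

theorem layer {ι : Type*} (S : Finset ι) (M : ι → ℕ) (hM : ∀ i ∈ S, 1 ≤ M i) (w : ℕ → ℝ)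
    (hw : ∀ m, 1 ≤ m → ((S.filter (fun i => M i ≤ m)).card : ℝ) ≤ m * w m)
    (R : ℝ) (r : ℕ) (hr : 1 ≤ r) (hrR : (r : ℝ) ≤ R) (hRr : R < r + 1) :
    ∑ i ∈ S, (Real.log R - Real.log (M i)) ≤ ∑ m ∈ Ico 1 r, w m + (R - r) * w r := by
  have hr0 : (0 : ℝ) < r := by exact_mod_cast (by omega : 0 < r)
  calc ∑ i ∈ S, (Real.log R - Real.log (M i))
      ≤ ∑ i ∈ S, (∑ m ∈ Ico 1 r, (if M i ≤ m then (1 : ℝ) / m else 0)
          + (if M i ≤ r then (R - r) / r else 0)) :=
        sum_le_sum fun i hi => pointwise (M i) (hM i hi) R r hr hrR hRr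
    _ = ∑ m ∈ Ico 1 r, ((S.filter (fun i => M i ≤ m)).card : ℝ) * (1 / m)
          + ((S.filter (fun i => M i ≤ r)).card : ℝ) * ((R - r) / r) := by
        rw [sum_add_distrib, sum_comm]
        congr 1
        · refine sum_congr rfl fun m _ => ?_
          rw [← sum_filter, sum_const, nsmul_eq_mul]
        · rw [← sum_filter, sum_const, nsmul_eq_mul]
    _ ≤ ∑ m ∈ Ico 1 r, w m + (R - r) * w r := by
        refine add_le_add (sum_le_sum fun m hm => ?_) ?_
        · rw [mem_Ico] at hm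
          have hm0 : (0 : ℝ) < m := by exact_mod_cast (by omega : 0 < m)
          have := hw m hm.1
          calc ((S.filter (fun i => M i ≤ m)).card : ℝ) * (1 / m) ≤ (m * w m) * (1 / m) :=
                mul_le_mul_of_nonneg_right this (by positivity)
            _ = w m := by field_simp
        · have := hw r hr
          have h0 : 0 ≤ (R - r) / r := div_nonneg (by linarith) hr0.le
          calc ((S.filter (fun i => M i ≤ r)).card : ℝ) * ((R - r) / r)
              ≤ (r * w r) * ((R - r) / r) := mul_le_mul_of_nonneg_right this h0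
            _ = (R - r) * w r := by field_simp

theorem sum_Ico_linear (α β : ℝ) (r : ℕ) (hr : 1 ≤ r) :
    ∑ m ∈ Ico 1 r, (α * m + β) = α * (r * (r - 1) / 2) + β * (r - 1) := by
  induction r, hr using Nat.le_induction with
  | base => simp
  | succ r hr ih =>
    rw [sum_Ico_succ_top hr, ih]
    push_cast
    ring

/-- If `#{M ≤ m} ≤ m (2 m + 1)` for all `m ≥ 1`, then `∑ (log R - log M) ≤ R²` for all `R > 0`. -/
theorem layer_two {ι : Type*} (S : Finset ι) (M : ι → ℕ) (hM : ∀ i ∈ S, 1 ≤ M i)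
    (hw : ∀ m, 1 ≤ m → (S.filter (fun i => M i ≤ m)).card ≤ m * (2 * m + 1))
    (R : ℝ) (hR : 0 < R) :
    ∑ i ∈ S, (Real.log R - Real.log (M i)) ≤ R ^ 2 := by
  by_cases h1 : R < 1
  · refine (sum_nonpos fun i hi => ?_).trans (sq_nonneg R)
    have h2 : R ≤ M i := by
      have : (1 : ℝ) ≤ M i := by exact_mod_cast hM i hi
      linarith
    have := Real.log_le_log hR h2
    linarith
  · have h1 : 1 ≤ R := not_lt.1 h1
    have hr : 1 ≤ ⌊R⌋₊ := (Nat.one_le_floor_iff _).2 h1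
    have h2 : ((⌊R⌋₊ : ℕ) : ℝ) ≤ R := Nat.floor_le hR.le
    have h3 : R < ⌊R⌋₊ + 1 := Nat.lt_floor_add_one R
    refine (layer S M hM (fun m => 2 * (m : ℝ) + 1) (fun m hm => ?_) R _ hr h2 h3).trans ?_
    · exact_mod_cast hw m hm
    · rw [sum_Ico_linear 2 1 _ hr]
      generalize ((⌊R⌋₊ : ℕ) : ℝ) = x at *
      nlinarith [mul_nonneg (sub_nonneg.2 h2) (sub_nonneg.2 h3.le)]

/-- If `#{M ≤ m} ≤ 3 m²` for all `m ≥ 1`, then `∑ (log R - log M) ≤ (3/2) R²` for all `R > 0`. -/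
theorem layer_three {ι : Type*} (S : Finset ι) (M : ι → ℕ) (hM : ∀ i ∈ S, 1 ≤ M i)
    (hw : ∀ m, 1 ≤ m → (S.filter (fun i => M i ≤ m)).card ≤ m * (3 * m))
    (R : ℝ) (hR : 0 < R) :
    ∑ i ∈ S, (Real.log R - Real.log (M i)) ≤ 3 / 2 * R ^ 2 := by
  by_cases h1 : R < 1
  · refine (sum_nonpos fun i hi => ?_).trans (by positivity)
    have h2 : R ≤ M i := by
      have : (1 : ℝ) ≤ M i := by exact_mod_cast hM i hi
      linarith
    have := Real.log_le_log hR h2
    linarith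
  · have h1 : 1 ≤ R := not_lt.1 h1
    have hr : 1 ≤ ⌊R⌋₊ := (Nat.one_le_floor_iff _).2 h1
    have h2 : ((⌊R⌋₊ : ℕ) : ℝ) ≤ R := Nat.floor_le hR.le
    have h3 : R < ⌊R⌋₊ + 1 := Nat.lt_floor_add_one R
    have hr' : (1 : ℝ) ≤ ((⌊R⌋₊ : ℕ) : ℝ) := by exact_mod_cast hr
    refine (layer S M hM (fun m => 3 * (m : ℝ)) (fun m hm => ?_) R _ hr h2 h3).trans ?_
    · exact_mod_cast hw m hm
    · have := sum_Ico_linear 3 0 _ hr
      simp only [add_zero] at this
      rw [this]
      generalize ((⌊R⌋₊ : ℕ) : ℝ) = x at *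
      nlinarith [mul_nonneg (sub_nonneg.2 h2) (sub_nonneg.2 h3.le)]

end Pool.Agent.Work.MP_68df70_lc
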