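import Mathlib

namespace Pool.Agent.Work.MP_68df70_lc

open Finset

/-- number of `i < L` with `i g₁ + g₂` divisible by no prime of `P`. -/
def cnt (P : Finset ℕ) (L : ℕ) (g₁ g₂ : ℤ) : ℕ :=
  ((range L).filter (fun i : ℕ => ∀ p ∈ P, ¬ (p : ℤ) ∣ (i : ℤ) * g₁ + g₂)).card

theorem sieve (P : Finset ℕ) : (∀ p ∈ P, p.Prime) → ∀ (L : ℕ) (g₁ g₂ : ℤ),
    (∀ p ∈ P, ¬ ((p : ℤ) ∣ g₁ ∧ (p : ℤ) ∣ g₂)) →
    |(cnt P L g₁ g₂ : ℝ) - L * ∏ p ∈ P, (if (p : ℤ) ∣ g₁ then (1 : ℝ) else 1 - 1 / p)|
      ≤ 2 ^ P.card - 1 := by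
  classical
  induction P using Finset.induction_on with
  | empty =>
    intro _ L g₁ g₂ _
    simp [cnt]
  | insert q P hq ih =>
    intro hP L g₁ g₂ hg
    have hP' : ∀ p ∈ P, p.Prime := fun p hp => hP p (mem_insert_of_mem hp)
    have hqp : q.Prime := hP q (mem_insert_self _ _)
    have hg' : ∀ p ∈ P, ¬ ((p : ℤ) ∣ g₁ ∧ (p : ℤ) ∣ g₂) := fun p hp => hg p (mem_insert_of_mem hp)
    have h1 := ih hP' L g₁ g₂ hg'
    rw [card_insert_of_notMem hq, prod_insert hq]
    have hpow : (1 : ℝ) ≤ 2 ^ P.card := one_le_pow₀ (by norm_num)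
    by_cases hqg : (q : ℤ) ∣ g₁
    · rw [if_pos hqg, one_mul]
      have hc : cnt (insert q P) L g₁ g₂ = cnt P L g₁ g₂ := by
        unfold cnt
        congr 1
        refine filter_congr fun i _ => ?_
        rw [forall_mem_insert]
        refine ⟨fun h => h.2, fun h => ⟨fun hd => ?_, h⟩⟩
        refine hg q (mem_insert_self _ _) ⟨hqg, ?_⟩
        exact (Int.dvd_add_right (hqg.mul_left _)).1 hd
      rw [hc]
      refine h1.trans ?_
      rw [pow_succ]
      linarith
    · rw [if_neg hqg]
      have hqz : Prime (q : ℤ) := Nat.prime_iff_prime_int.1 hqp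
      have hcop : IsCoprime g₁ (q : ℤ) := ((hqz.coprime_iff_not_dvd).2 hqg).symm
      obtain ⟨u, v, huv⟩ := hcop
      have hq0 : (0 : ℤ) < q := by exact_mod_cast hqp.pos
      -- residue
      obtain ⟨i0, hi0q, hi0⟩ : ∃ i0 : ℕ, i0 < q ∧ ∀ i : ℕ, ((q : ℤ) ∣ (i : ℤ) * g₁ + g₂ ↔
          (q : ℤ) ∣ (i : ℤ) - i0) := by
        refine ⟨((-g₂ * u) % q).toNat, ?_, fun i => ?_⟩
        · have := Int.emod_lt_of_pos (-g₂ * u) hq0
          have := Int.emod_nonneg (-g₂ * u) hq0.ne'
          omega
        · rw [Int.toNat_of_nonneg (Int.emod_nonneg _ hq0.ne')]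
          have h2 : (q : ℤ) ∣ -g₂ * u - (-g₂ * u) % q := Int.dvd_self_sub_emod
          constructor
          · intro h3
            have h4 : (i : ℤ) - (-g₂ * u) % q = ((i : ℤ) * g₁ + g₂) * u + (i * v) * q
                + (-g₂ * u - (-g₂ * u) % q) := by
              have : (i : ℤ) = i * (u * g₁ + v * q) := by rw [huv]; ring
              linear_combination this
            rw [h4]
            exact dvd_add (dvd_add (h3.mul_right _) (dvd_mul_left _ _)) h2
          · intro h3
            have h4 : (i : ℤ) * g₁ + g₂ = g₁ * ((i : ℤ) - (-g₂ * u) % q)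
                - g₁ * (-g₂ * u - (-g₂ * u) % q) + (g₂ * v) * q := by
              have : g₂ = g₂ * (u * g₁ + v * q) := by rw [huv]; ring
              linear_combination this
            rw [h4]
            exact dvd_add (dvd_sub (h3.mul_left _) (h2.mul_left _)) (dvd_mul_left _ _)
      set L' : ℕ := (L + q - 1 - i0) / q with hL'
      have hsplit : cnt P L g₁ g₂ = cnt (insert q P) L g₁ g₂
          + cnt P L' (q * g₁) ((i0 : ℤ) * g₁ + g₂) := by
        have h3 : cnt (insert q P) L g₁ g₂ = (((range L).filter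
            (fun i : ℕ => ∀ p ∈ P, ¬ (p : ℤ) ∣ (i : ℤ) * g₁ + g₂)).filter
            (fun i : ℕ => ¬ (q : ℤ) ∣ (i : ℤ) * g₁ + g₂)).card := by
          unfold cnt
          rw [filter_filter]
          congr 1
          refine filter_congr fun i _ => ?_
          rw [forall_mem_insert, and_comm]
        have h4 : cnt P L' (q * g₁) ((i0 : ℤ) * g₁ + g₂) = (((range L).filter
            (fun i : ℕ => ∀ p ∈ P, ¬ (p : ℤ) ∣ (i : ℤ) * g₁ + g₂)).filter
            (fun i : ℕ => (q : ℤ) ∣ (i : ℤ) * g₁ + g₂)).card := by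
          unfold cnt
          refine card_bij (fun j _ => i0 + q * j) ?_ ?_ ?_
          · intro j hj
            rw [mem_filter, mem_range] at hj
            rw [mem_filter, mem_filter, mem_range]
            refine ⟨⟨?_, ?_⟩, ?_⟩
            · have h5 := hj.1
              rw [hL', Nat.lt_div_iff_mul_lt hqp.pos] at h5
              have h6 : q * j = j * q := mul_comm _ _
              omega
            · intro p hp
              have := hj.2 p hp
              have h5 : ((i0 + q * j : ℕ) : ℤ) * g₁ + g₂ = (j : ℤ) * (q * g₁) + (i0 * g₁ + g₂) := by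
                push_cast; ring
              rw [h5]
              exact this
            · rw [hi0]
              push_cast
              exact ⟨j, by ring⟩
          · intro j _ j' _ h
            have h5 : q * j = q * j' := by simpa using h
            exact Nat.eq_of_mul_eq_mul_left hqp.pos h5
          · intro i hi
            rw [mem_filter, mem_filter, mem_range] at hi
            obtain ⟨⟨hiL, hip⟩, hiq⟩ := hi
            rw [hi0] at hiq
            obtain ⟨c, hc⟩ := hiq
            have hc0 : 0 ≤ c := by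
              by_contra hneg
              push Not at hneg
              have h5 : (q : ℤ) * c ≤ q * (-1) := by
                apply mul_le_mul_of_nonneg_left _ hq0.le
                omega
              have h6 : (i : ℤ) - i0 ≤ - q := by rw [hc]; linarith
              omega
            have hci : i0 + q * c.toNat = i := by
              have h5 : ((i0 + q * c.toNat : ℕ) : ℤ) = i := by
                push_cast
                rw [Int.toNat_of_nonneg hc0]
                linarith
              exact_mod_cast h5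
            refine ⟨c.toNat, ?_, hci⟩
            rw [mem_filter, mem_range]
            refine ⟨?_, ?_⟩
            · rw [hL', Nat.lt_div_iff_mul_lt hqp.pos]
              have h6 : q * c.toNat = c.toNat * q := mul_comm _ _
              omega
            · intro p hp
              have := hip p hp
              rw [← hci] at this
              have h5 : ((i0 + q * c.toNat : ℕ) : ℤ) * g₁ + g₂
                  = (c.toNat : ℤ) * (q * g₁) + (i0 * g₁ + g₂) := by
                push_cast; ring
              rw [h5] at this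
              exact this
        rw [h3, h4, add_comm]
        exact (card_filter_add_card_filter_not _).symm
      have hpq : ∀ p ∈ P, ((p : ℤ) ∣ q * g₁ ↔ (p : ℤ) ∣ g₁) := by
        intro p hp
        have hpz : Prime (p : ℤ) := Nat.prime_iff_prime_int.1 (hP' p hp)
        constructor
        · intro h
          rcases hpz.dvd_or_dvd h with h | h
          · exfalso
            have h5 : p ∣ q := by exact_mod_cast h
            have h6 := (Nat.prime_dvd_prime_iff_eq (hP' p hp) hqp).1 h5
            exact hq (h6 ▸ hp)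
          · exact h
        · exact fun h => h.mul_left _
      have h2 := ih hP' L' (q * g₁) ((i0 : ℤ) * g₁ + g₂) (by
        intro p hp ⟨h3, h4⟩
        rw [hpq p hp] at h3
        exact hg' p hp ⟨h3, (Int.dvd_add_right (h3.mul_left _)).1 h4⟩)
      have hprod : ∏ p ∈ P, (if (p : ℤ) ∣ q * g₁ then (1 : ℝ) else 1 - 1 / p)
          = ∏ p ∈ P, (if (p : ℤ) ∣ g₁ then (1 : ℝ) else 1 - 1 / p) := by
        refine prod_congr rfl fun p hp => ?_
        simp only [hpq p hp]
      rw [hprod] at h2
      have hprod0 : 0 ≤ ∏ p ∈ P, (if (p : ℤ) ∣ g₁ then (1 : ℝ) else 1 - 1 / p) := by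
        refine prod_nonneg fun p hp => ?_
        split_ifs
        · norm_num
        · have : (1 : ℝ) ≤ p := by exact_mod_cast (hP' p hp).one_le
          have h5 : (1 : ℝ) / p ≤ 1 := by rw [div_le_one (by linarith)]; exact this
          linarith
      have hprod1 : ∏ p ∈ P, (if (p : ℤ) ∣ g₁ then (1 : ℝ) else 1 - 1 / p) ≤ 1 := by
        refine prod_le_one (fun p hp => ?_) fun p hp => ?_
        · split_ifs
          · norm_num
          · have : (1 : ℝ) ≤ p := by exact_mod_cast (hP' p hp).one_le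
            have h5 : (1 : ℝ) / p ≤ 1 := by rw [div_le_one (by linarith)]; exact this
            linarith
        · split_ifs
          · norm_num
          · have : (0 : ℝ) ≤ 1 / p := by positivity
            linarith
      generalize ∏ p ∈ P, (if (p : ℤ) ∣ g₁ then (1 : ℝ) else 1 - 1 / p) = π at *
      have hLL : |(L' : ℝ) - L / q| ≤ 1 := by
        have hq1 : (0 : ℝ) < q := by exact_mod_cast hqp.pos
        have h5 : L' * q ≤ L + q - 1 - i0 := Nat.div_mul_le_self _ _
        have h6 : L + q - 1 - i0 < L' * q + q := by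
          rw [hL']; exact Nat.lt_div_mul_add hqp.pos
        have h5' : (L' : ℝ) * q ≤ L + q := by exact_mod_cast (by omega : L' * q ≤ L + q)
        have h6' : (L : ℝ) ≤ L' * q + q := by
          exact_mod_cast (by omega : L ≤ L' * q + q)
        rw [abs_le]
        constructor
        · have : (L : ℝ) / q ≤ L' + 1 := by
            rw [div_le_iff₀ hq1]; linarith
          linarith
        · have : (L' : ℝ) ≤ L / q + 1 := by
            rw [← sub_le_iff_le_add, le_div_iff₀ hq1]; linarith
          linarith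
      have hs : (cnt (insert q P) L g₁ g₂ : ℝ) = cnt P L g₁ g₂
          - cnt P L' (q * g₁) ((i0 : ℤ) * g₁ + g₂) := by
        have : (cnt P L g₁ g₂ : ℝ) = cnt (insert q P) L g₁ g₂
          + cnt P L' (q * g₁) ((i0 : ℤ) * g₁ + g₂) := by exact_mod_cast hsplit
        linarith
      rw [hs]
      have hLπ : |((L' : ℝ) - L / q) * π| ≤ 1 := by
        rw [abs_mul, abs_of_nonneg hprod0]
        calc |(L' : ℝ) - L / q| * π ≤ 1 * 1 := mul_le_mul hLL hprod1 hprod0 (by norm_num)
          _ = 1 := one_mul 1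
      have heq : (cnt P L g₁ g₂ : ℝ) - cnt P L' (q * g₁) ((i0 : ℤ) * g₁ + g₂)
          - L * ((1 - 1 / q) * π) = (cnt P L g₁ g₂ - L * π)
            - (cnt P L' (q * g₁) ((i0 : ℤ) * g₁ + g₂) - L' * π) - ((L' : ℝ) - L / q) * π := by
        ring
      rw [heq]
      calc _ ≤ |(cnt P L g₁ g₂ : ℝ) - L * π| + |(cnt P L' (q * g₁) ((i0 : ℤ) * g₁ + g₂) : ℝ)
            - L' * π| + |((L' : ℝ) - L / q) * π| := by
            refine (abs_sub _ _).trans ?_
            gcongr
            exact abs_sub _ _
        _ ≤ (2 ^ P.card - 1) + (2 ^ P.card - 1) + 1 := by gcongr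
        _ = 2 ^ (P.card + 1) - 1 := by rw [pow_succ]; ring

theorem prod_lower (k : ℕ) : ∀ P : Finset ℕ, P.card = k → (∀ p ∈ P, 2 ≤ p) →
    1 / ((k : ℝ) + 1) ≤ ∏ p ∈ P, (1 - 1 / (p : ℝ)) := by
  induction k with
  | zero =>
    intro P hP _
    rw [card_eq_zero] at hP
    subst hP
    simp
  | succ k ih =>
    intro P hP h2
    have hne : P.Nonempty := by
      rw [← card_pos]; omega
    set M := P.max' hne with hM
    have hMP : M ∈ P := max'_mem _ _
    have hcard : k + 2 ≤ M := by
      have hsub : P ⊆ Icc 2 M := by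
        intro p hp
        rw [mem_Icc]
        exact ⟨h2 p hp, le_max' _ _ hp⟩
      have := card_le_card hsub
      rw [Nat.card_Icc, hP] at this
      omega
    have h3 := ih (P.erase M) (by rw [card_erase_of_mem hMP, hP]; rfl)
      (fun p hp => h2 p (mem_of_mem_erase hp))
    rw [← mul_prod_erase P _ hMP]
    have hk0 : (0 : ℝ) < (k : ℝ) + 1 := by positivity
    have hM1 : (k : ℝ) + 2 ≤ M := by exact_mod_cast hcard
    have h4 : 1 - 1 / ((k : ℝ) + 2) ≤ 1 - 1 / (M : ℝ) := by
      have : 1 / (M : ℝ) ≤ 1 / ((k : ℝ) + 2) := one_div_le_one_div_of_le (by linarith) hM1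
      linarith
    calc 1 / (((k + 1 : ℕ) : ℝ) + 1) = (1 - 1 / ((k : ℝ) + 2)) * (1 / ((k : ℝ) + 1)) := by
          push_cast
          field_simp
          ring
      _ ≤ (1 - 1 / (M : ℝ)) * ∏ p ∈ P.erase M, (1 - 1 / (p : ℝ)) := by
          apply mul_le_mul h4 h3 (by positivity)
          have : 1 / ((k : ℝ) + 2) ≤ 1 := by
            rw [div_le_one (by linarith)]; linarith
          linarith

/-- Among any `(k+1) 2^k` consecutive integers `x`, where `k` is the number of primes dividing
`N`, there is one with `x g₁ + g₂` coprime to `N`, if `g₁, g₂` are coprime. -/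
theorem exists_coprime (N : ℕ) (hN : N ≠ 0) (g₁ g₂ : ℤ) (h : IsCoprime g₁ g₂) (s : ℤ) :
    ∃ i : ℕ, i < (N.primeFactors.card + 1) * 2 ^ N.primeFactors.card ∧
      IsCoprime ((s + i) * g₁ + g₂) (N : ℤ) := by
  set P := N.primeFactors with hP
  set k := P.card with hk
  have hPp : ∀ p ∈ P, p.Prime := fun p hp => Nat.prime_of_mem_primeFactors hp
  have h1 := sieve P hPp ((k + 1) * 2 ^ k) g₁ (s * g₁ + g₂) (by
    intro p hp ⟨h2, h3⟩
    have h4 : (p : ℤ) ∣ g₂ := (Int.dvd_add_right (h2.mul_left _)).1 h3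
    have h5 := h.isUnit_of_dvd' h2 h4
    have := (Nat.prime_iff_prime_int.1 (hPp p hp)).not_isUnit
    exact this h5)
  have h2 : 1 / ((k : ℝ) + 1) ≤ ∏ p ∈ P, (if (p : ℤ) ∣ g₁ then (1 : ℝ) else 1 - 1 / p) := by
    refine (prod_lower k P rfl (fun p hp => (hPp p hp).two_le)).trans ?_
    refine prod_le_prod (fun p hp => ?_) fun p hp => ?_
    · have : (1 : ℝ) ≤ p := by exact_mod_cast (hPp p hp).one_le
      have h5 : (1 : ℝ) / p ≤ 1 := by rw [div_le_one (by linarith)]; exact this
      linarith
    · split_ifs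
      · have : (0 : ℝ) ≤ 1 / p := by positivity
        linarith
      · exact le_rfl
  have h3 : 0 < cnt P ((k + 1) * 2 ^ k) g₁ (s * g₁ + g₂) := by
    have h4 : (0 : ℝ) < cnt P ((k + 1) * 2 ^ k) g₁ (s * g₁ + g₂) := by
      have h5 := (abs_le.1 h1).1
      have h6 : (2 : ℝ) ^ k ≤ (((k + 1) * 2 ^ k : ℕ) : ℝ) *
          ∏ p ∈ P, (if (p : ℤ) ∣ g₁ then (1 : ℝ) else 1 - 1 / p) := by
        calc (2 : ℝ) ^ k = (((k + 1) * 2 ^ k : ℕ) : ℝ) * (1 / ((k : ℝ) + 1)) := by
              push_cast
              field_simp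
          _ ≤ _ := mul_le_mul_of_nonneg_left h2 (by positivity)
      linarith
    exact_mod_cast h4
  unfold cnt at h3
  rw [card_pos] at h3
  obtain ⟨i, hi⟩ := h3
  rw [mem_filter, mem_range] at hi
  refine ⟨i, hi.1, ?_⟩
  rw [Int.isCoprime_iff_gcd_eq_one]
  by_contra hne
  obtain ⟨p, hp, hpd⟩ := Nat.exists_prime_and_dvd hne
  have h5 : (p : ℤ) ∣ (s + i) * g₁ + g₂ := (Int.natCast_dvd_natCast.2 hpd).trans (Int.gcd_dvd_left _ _)
  have h6 : (p : ℤ) ∣ (N : ℤ) := (Int.natCast_dvd_natCast.2 hpd).trans (Int.gcd_dvd_right _ _)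
  have h7 : p ∣ N := by exact_mod_cast h6
  have h8 : p ∈ P := Nat.mem_primeFactors.2 ⟨hp, h7, hN⟩
  apply hi.2 p h8
  have h9 : (i : ℤ) * g₁ + (s * g₁ + g₂) = (s + i) * g₁ + g₂ := by ring
  rw [h9]
  exact h5

end Pool.Agent.Work.MP_68df70_lc
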