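import Mathlib
import Pool.Agent.Work.MP_68df70_lc.Count
import Pool.Agent.Work.MP_68df70_lc.Sieve
import Pool.Agent.Work.MP_68df70_lc.Layer

namespace Pool.Agent.Work.MP_68df70_lc

open Finset

/-- Dirichlet / Minkowski: the shortest vector has height at most `√T`. -/
theorem minV_sq_le (T A : ℕ) (hT : 1 ≤ T) : (minV T A) ^ 2 ≤ T := by
  have hs : 1 ≤ Nat.sqrt T := Nat.sqrt_pos.2 hT
  obtain ⟨j, k, hk0, hk1, h⟩ := Real.exists_int_int_abs_mul_sub_le ((A : ℝ) / T)
    (n := Nat.sqrt T) hs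
  have hT0 : (0 : ℝ) < T := by exact_mod_cast hT
  have h1 : |((k * A - T * j : ℤ) : ℝ)| < (Nat.sqrt T : ℝ) + 1 := by
    have h2 : ((k * A - T * j : ℤ) : ℝ) = T * (k * ((A : ℝ) / T) - j) := by
      push_cast
      field_simp
    rw [h2, abs_mul, abs_of_pos hT0]
    have h3 : (T : ℝ) < ((Nat.sqrt T : ℝ) + 1) * ((Nat.sqrt T : ℝ) + 1) := by
      exact_mod_cast Nat.lt_succ_sqrt T
    have h4 : (0 : ℝ) < (Nat.sqrt T : ℝ) + 1 := by positivity
    calc (T : ℝ) * |(k : ℝ) * ((A : ℝ) / T) - j| ≤ T * (1 / ((Nat.sqrt T : ℝ) + 1)) :=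
          mul_le_mul_of_nonneg_left h hT0.le
      _ = T / ((Nat.sqrt T : ℝ) + 1) := by ring
      _ < (Nat.sqrt T : ℝ) + 1 := by rw [div_lt_iff₀ h4]; exact h3
  have h2 : |k * A - T * j| < (Nat.sqrt T : ℤ) + 1 := by exact_mod_cast h1
  have h3 : minV T A ≤ Nat.sqrt T := by
    refine (minV_le (f := k * A - T * j) (g := k) (Or.inr hk0.ne') ⟨j, by ring⟩).trans ?_
    rw [max_le_iff]
    constructor
    · rw [Int.abs_eq_natAbs] at h2; omega
    · omega
  calc (minV T A) ^ 2 ≤ (Nat.sqrt T) ^ 2 := Nat.pow_le_pow_left h3 2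
    _ ≤ T := Nat.sqrt_le' T

theorem exists_small_shift (z c : ℤ) (hc : c ≠ 0) : ∃ k : ℤ, 2 * |z + k * c| ≤ |c| := by
  have h1 := Int.emod_nonneg z (abs_pos.2 hc).ne'
  have h2 := Int.emod_lt_of_pos z (abs_pos.2 hc)
  have h3 := Int.emod_add_mul_ediv z |c|
  obtain ⟨e, he⟩ : ∃ e : ℤ, |c| = e * c := by
    rcases abs_choice c with h | h
    · exact ⟨1, by rw [h]; ring⟩
    · exact ⟨-1, by rw [h]; ring⟩
  by_cases h : 2 * (z % |c|) ≤ |c|
  · refine ⟨-(e * (z / |c|)), ?_⟩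
    have h4 : z + -(e * (z / |c|)) * c = z % |c| := by
      linear_combination (z / |c|) * he - h3
    rw [h4, abs_of_nonneg h1]
    exact h
  · refine ⟨-(e * (z / |c|)) - e, ?_⟩
    have h4 : z + (-(e * (z / |c|)) - e) * c = z % |c| - |c| := by
      linear_combination (z / |c| + 1) * he - h3
    rw [h4, abs_of_nonpos (by linarith)]
    linarith

/-- A basis `b₁, b₂` of the lattice, `b₁` a shortest vector. -/
theorem exists_basis (T A : ℕ) (hT : 2 ≤ T) :
    ∃ f₁ g₁ f₂ g₂ : ℤ, (T : ℤ) ∣ g₁ * A - f₁ ∧ (T : ℤ) ∣ g₂ * A - f₂ ∧ IsCoprime g₁ g₂ ∧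
      minV T A = max f₁.natAbs g₁.natAbs ∧
      (|(f₂ : ℝ)| ≤ T / minV T A + minV T A / 2) ∧
      (|(g₂ : ℝ)| ≤ T / minV T A + minV T A / 2) := by
  have hsq := minV_sq_le T A (by omega)
  have hpos := minV_pos T A
  have hlt : minV T A < T := by
    by_contra hcon
    push Not at hcon
    nlinarith
  obtain ⟨f₁, g₁, u₁, hg1, h1, hμ⟩ := minV_mem_pos hlt
  -- primitivity
  have hcop : IsCoprime g₁ u₁ := by
    rw [Int.isCoprime_iff_gcd_eq_one]
    have hd : 0 < Int.gcd g₁ u₁ := Int.gcd_pos_of_ne_zero_left _ hg1.ne'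
    obtain ⟨g', hg'⟩ := Int.gcd_dvd_left g₁ u₁
    obtain ⟨u', hu'⟩ := Int.gcd_dvd_right g₁ u₁
    generalize Int.gcd g₁ u₁ = d at *
    have hg'0 : g' ≠ 0 := by
      rintro rfl
      simp at hg'
      omega
    have h2 : minV T A ≤ max (g' * A - T * u').natAbs g'.natAbs :=
      minV_le (Or.inr hg'0) ⟨u', by ring⟩
    have h3 : f₁ = d * (g' * A - T * u') := by
      rw [hg', hu'] at h1
      linear_combination -h1
    have h4 : minV T A = d * max (g' * A - T * u').natAbs g'.natAbs := by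
      rw [hμ, h3, hg', Int.natAbs_mul, Int.natAbs_mul, Int.natAbs_natCast, Nat.mul_max_mul_left]
    by_contra hne
    have hd2 : 2 ≤ d := by omega
    have h5 : 0 < max (g' * A - T * u').natAbs g'.natAbs :=
      lt_max_of_lt_right (by omega)
    nlinarith
  obtain ⟨a, b, hab⟩ := hcop
  -- second vector, with a free shift
  have key : ∀ k : ℤ, (f₁ * (-b + k * g₁) - ((-b) * A - T * a + k * f₁) * g₁ = T) := by
    intro k
    linear_combination b * h1 + T * hab
  have hdvd : ∀ k : ℤ, (T : ℤ) ∣ (-b + k * g₁) * A - ((-b) * A - T * a + k * f₁) := by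
    intro k
    exact ⟨a + k * u₁, by linear_combination k * h1⟩
  have hcop2 : ∀ k : ℤ, IsCoprime g₁ (-b + k * g₁) := by
    intro k
    refine ⟨a + k * u₁, -u₁, ?_⟩
    linear_combination hab
  have hμ0 : (0 : ℝ) < minV T A := by exact_mod_cast hpos
  have hTpos : (0 : ℝ) < T := by exact_mod_cast (by omega : 0 < T)
  -- bound lemma
  have bound : ∀ x y p q : ℝ, |x| = minV T A → |y| ≤ minV T A → |p| ≤ minV T A / 2 →
      (|x * q - y * p| = T) → |q| ≤ T / minV T A + minV T A / 2 := by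
    intro x y p q hx hy hp hdet
    have e1 : |x * q| ≤ T + |y * p| := by
      have : x * q = (x * q - y * p) + y * p := by ring
      rw [this, ← hdet]
      exact abs_add_le _ _
    rw [abs_mul, abs_mul, hx] at e1
    have e2 : |y| * |p| ≤ minV T A * (minV T A / 2) := mul_le_mul hy hp (abs_nonneg _) hμ0.le
    have e3 : (minV T A : ℝ) * |q| ≤ T + minV T A * (minV T A / 2) := by linarith
    have e4 : (T : ℝ) / minV T A + minV T A / 2 = (T + minV T A * (minV T A / 2)) / minV T A := by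
      field_simp
    rw [e4, le_div_iff₀ hμ0]
    linarith
  have hself : (minV T A : ℝ) / 2 ≤ T / minV T A + minV T A / 2 := by
    have : 0 < (T : ℝ) / minV T A := by positivity
    linarith
  have hf1le : |(f₁ : ℝ)| ≤ minV T A := by
    have h : ((f₁.natAbs : ℕ) : ℝ) ≤ minV T A := by
      rw [hμ]; exact Nat.cast_le.2 (le_max_left _ _)
    rwa [Nat.cast_natAbs, Int.cast_abs] at h
  have hg1le : |(g₁ : ℝ)| ≤ minV T A := by
    have h : ((g₁.natAbs : ℕ) : ℝ) ≤ minV T A := by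
      rw [hμ]; exact Nat.cast_le.2 (le_max_right _ _)
    rwa [Nat.cast_natAbs, Int.cast_abs] at h
  rcases le_total f₁.natAbs g₁.natAbs with hle | hle
  · -- `g₁` is the height
    have hμ' : |(g₁ : ℝ)| = minV T A := by
      rw [← Int.cast_abs, Int.abs_eq_natAbs, hμ, max_eq_right hle]
      simp
    obtain ⟨k, hk⟩ := exists_small_shift (-b) g₁ hg1.ne'
    refine ⟨f₁, g₁, (-b) * A - T * a + k * f₁, -b + k * g₁, ⟨u₁, by linear_combination h1⟩,
      hdvd k, hcop2 k, hμ, ?_, ?_⟩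
    · have hk' : |(((-b + k * g₁ : ℤ)) : ℝ)| ≤ minV T A / 2 := by
        have : (2 : ℝ) * |(((-b + k * g₁ : ℤ)) : ℝ)| ≤ |(g₁ : ℝ)| := by exact_mod_cast hk
        rw [hμ'] at this
        linarith
      refine bound (g₁ : ℝ) (f₁ : ℝ) _ _ hμ' hf1le hk' ?_
      have := key k
      have h5 : ((f₁ * (-b + k * g₁) - ((-b) * A - T * a + k * f₁) * g₁ : ℤ) : ℝ) = T := by
        exact_mod_cast this
      have h6 : (g₁ : ℝ) * (((-b) * A - T * a + k * f₁ : ℤ) : ℝ) - f₁ * ((-b + k * g₁ : ℤ) : ℝ)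
          = -((f₁ * (-b + k * g₁) - ((-b) * A - T * a + k * f₁) * g₁ : ℤ) : ℝ) := by
        push_cast; ring
      rw [h6, h5, abs_neg, abs_of_pos hTpos]
    · have hk' : |(((-b + k * g₁ : ℤ)) : ℝ)| ≤ minV T A / 2 := by
        have : (2 : ℝ) * |(((-b + k * g₁ : ℤ)) : ℝ)| ≤ |(g₁ : ℝ)| := by exact_mod_cast hk
        rw [hμ'] at this
        linarith
      exact hk'.trans hself
  · have hμ' : |(f₁ : ℝ)| = minV T A := by
      rw [← Int.cast_abs, Int.abs_eq_natAbs, hμ, max_eq_left hle]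
      simp
    have hf1 : f₁ ≠ 0 := by
      rintro rfl
      simp at hle
      omega
    obtain ⟨k, hk⟩ := exists_small_shift ((-b) * A - T * a) f₁ hf1
    refine ⟨f₁, g₁, (-b) * A - T * a + k * f₁, -b + k * g₁, ⟨u₁, by linear_combination h1⟩,
      hdvd k, hcop2 k, hμ, ?_, ?_⟩
    · have hk' : |(((-b) * A - T * a + k * f₁ : ℤ) : ℝ)| ≤ minV T A / 2 := by
        have : (2 : ℝ) * |(((-b) * A - T * a + k * f₁ : ℤ) : ℝ)| ≤ |(f₁ : ℝ)| := by
          exact_mod_cast hk
        rw [hμ'] at this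
        linarith
      exact hk'.trans hself
    · have hk' : |(((-b) * A - T * a + k * f₁ : ℤ) : ℝ)| ≤ minV T A / 2 := by
        have : (2 : ℝ) * |(((-b) * A - T * a + k * f₁ : ℤ) : ℝ)| ≤ |(f₁ : ℝ)| := by
          exact_mod_cast hk
        rw [hμ'] at this
        linarith
      refine bound (f₁ : ℝ) (g₁ : ℝ) _ _ hμ' hg1le hk' ?_
      have := key k
      have h5 : ((f₁ * (-b + k * g₁) - ((-b) * A - T * a + k * f₁) * g₁ : ℤ) : ℝ) = T := by
        exact_mod_cast this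
      have h6 : (f₁ : ℝ) * ((-b + k * g₁ : ℤ) : ℝ) - g₁ * (((-b) * A - T * a + k * f₁ : ℤ) : ℝ)
          = ((f₁ * (-b + k * g₁) - ((-b) * A - T * a + k * f₁) * g₁ : ℤ) : ℝ) := by
        push_cast; ring
      rw [h6, h5, abs_of_pos hTpos]

/-- the window parameter. -/
def win (N : ℕ) : ℕ := (N.primeFactors.card + 1) * 2 ^ N.primeFactors.card / 2

theorem minM_le_real (N n A : ℕ) (hN : 2 ≤ N) (hn : n ≠ 0) :
    (minM N (N ^ n) A : ℝ) ≤ ((win N : ℝ) + 3 / 2) * (((N ^ n : ℕ) : ℝ) / minV (N ^ n) A) := by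
  have hT2 : 2 ≤ N ^ n := hN.trans (Nat.le_self_pow hn N)
  obtain ⟨f₁, g₁, f₂, g₂, h1, h2, hcop, hμ, hf₂, hg₂⟩ := exists_basis (N ^ n) A hT2
  obtain ⟨i, hi, hicop⟩ := exists_coprime N (by omega) g₁ g₂ hcop (-(win N : ℤ))
  have hpos := minV_pos (N ^ n) A
  have hμ0 : (0 : ℝ) < minV (N ^ n) A := by exact_mod_cast hpos
  have hsq := minV_sq_le (N ^ n) A (by omega)
  set T := N ^ n with hTdef
  have hT0 : (0 : ℝ) < T := by exact_mod_cast (by omega : 0 < T)
  have hμT : (minV T A : ℝ) ≤ T / minV T A := by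
    rw [le_div_iff₀ hμ0]
    have : ((minV T A : ℝ)) ^ 2 ≤ T := by exact_mod_cast hsq
    nlinarith
  have hiwin : |(-(win N : ℤ) + i)| ≤ (win N : ℤ) := by
    have : i ≤ 2 * win N := by unfold win; omega
    rw [abs_le]
    constructor <;> omega
  have hiwin' : |((-(win N : ℤ) + i : ℤ) : ℝ)| ≤ win N := by exact_mod_cast hiwin
  set x : ℤ := -(win N : ℤ) + i with hx
  set f : ℤ := x * f₁ + f₂ with hf
  set g : ℤ := x * g₁ + g₂ with hg
  have hdvd : (T : ℤ) ∣ g * A - f := by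
    have : g * A - f = x * (g₁ * A - f₁) + (g₂ * A - f₂) := by rw [hf, hg]; ring
    rw [this]
    exact dvd_add (h1.mul_left _) h2
  have hN2 : (N : ℤ) ≠ 1 := by omega
  have hg0 : g ≠ 0 := by
    intro h0
    rw [h0] at hicop
    have := isCoprime_zero_left.1 hicop
    rw [Int.isUnit_iff] at this
    omega
  have hf1le : |(f₁ : ℝ)| ≤ minV T A := by
    have h : ((f₁.natAbs : ℕ) : ℝ) ≤ minV T A := by
      rw [hμ]; exact Nat.cast_le.2 (le_max_left _ _)
    rwa [Nat.cast_natAbs, Int.cast_abs] at h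
  have hg1le : |(g₁ : ℝ)| ≤ minV T A := by
    have h : ((g₁.natAbs : ℕ) : ℝ) ≤ minV T A := by
      rw [hμ]; exact Nat.cast_le.2 (le_max_right _ _)
    rwa [Nat.cast_natAbs, Int.cast_abs] at h
  have hb : ∀ y z : ℝ, |y| ≤ minV T A → |z| ≤ T / minV T A + minV T A / 2 →
      |(x : ℝ) * y + z| ≤ ((win N : ℝ) + 3 / 2) * ((T : ℝ) / minV T A) := by
    intro y z hy hz
    have e1 : |(x : ℝ) * y + z| ≤ |(x : ℝ)| * |y| + |z| := by
      rw [← abs_mul]; exact abs_add_le _ _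
    have e2 : |(x : ℝ)| * |y| ≤ win N * minV T A :=
      mul_le_mul hiwin' hy (abs_nonneg _) (by positivity)
    have e3 : (win N : ℝ) * minV T A ≤ win N * (T / minV T A) :=
      mul_le_mul_of_nonneg_left hμT (by positivity)
    linarith
  have hfb : |(f : ℝ)| ≤ ((win N : ℝ) + 3 / 2) * ((T : ℝ) / minV T A) := by
    rw [hf]; push_cast; exact hb _ _ hf1le hf₂
  have hgb : |(g : ℝ)| ≤ ((win N : ℝ) + 3 / 2) * ((T : ℝ) / minV T A) := by
    rw [hg]; push_cast; exact hb _ _ hg1le hg₂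
  have hfin : minM N T A ≤ max f.natAbs g.natAbs := by
    rcases lt_or_gt_of_ne hg0 with h | h
    · have := minM_le (N := N) (T := T) (A := A) (f := -f) (g := -g)
        ⟨by omega, hicop.neg_left, by
          have : -g * A - -f = -(g * A - f) := by ring
          rw [this]; exact (dvd_neg).2 hdvd⟩
      rwa [Int.natAbs_neg, Int.natAbs_neg] at this
    · exact minM_le ⟨h, hicop, hdvd⟩
  calc (minM N T A : ℝ) ≤ ((max f.natAbs g.natAbs : ℕ) : ℝ) := Nat.cast_le.2 hfin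
    _ = max |(f : ℝ)| |(g : ℝ)| := by
        push_cast
        rw [Nat.cast_natAbs, Nat.cast_natAbs, Int.cast_abs, Int.cast_abs]
    _ ≤ _ := max_le hfb hgb

theorem upper_sum (N n : ℕ) (hN : 2 ≤ N) (hn : n ≠ 0) :
    ∑ A ∈ range (N ^ n), Real.log (minM N (N ^ n) A) ≤
      ((N : ℝ) ^ n) * (Real.log ((N : ℝ) ^ n) / 2 + 1 / 2 + Real.log 3 / 2
        + Real.log ((win N : ℝ) + 3 / 2)) := by
  have hT2 : 2 ≤ N ^ n := hN.trans (Nat.le_self_pow hn N)
  have hTeq : ((N : ℝ) ^ n) = ((N ^ n : ℕ) : ℝ) := by push_cast; rfl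
  rw [hTeq]
  set T := N ^ n with hTdef
  have hT0 : (0 : ℝ) < T := by exact_mod_cast (by omega : 0 < T)
  have hw0 : (0 : ℝ) < (win N : ℝ) + 3 / 2 := by positivity
  have h1 := layer_three (range T) (minV T) (fun A _ => minV_pos T A)
    (fun m hm => count_minV T m hm) (Real.sqrt (T / 3)) (Real.sqrt_pos.2 (by positivity))
  rw [Real.sq_sqrt (by positivity), sum_sub_distrib, sum_const, card_range, nsmul_eq_mul,
    Real.log_sqrt (by positivity), Real.log_div hT0.ne' (by norm_num)] at h1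
  have h2 : ∑ A ∈ range T, Real.log (minM N T A) ≤ ∑ A ∈ range T,
      (Real.log ((win N : ℝ) + 3 / 2) + Real.log T - Real.log (minV T A)) := by
    refine sum_le_sum fun A _ => ?_
    have hpos : (0 : ℝ) < minV T A := by exact_mod_cast minV_pos T A
    have hM : (0 : ℝ) < minM N T A := by exact_mod_cast minM_pos N T A
    have h3 := Real.log_le_log hM (minM_le_real N n A hN hn)
    rw [Real.log_mul hw0.ne' (by positivity), Real.log_div (by positivity) hpos.ne'] at h3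
    linarith
  rw [sum_sub_distrib, sum_const, card_range, nsmul_eq_mul] at h2
  nlinarith

theorem lower_sum (N n : ℕ) (hN : 2 ≤ N) :
    ((N : ℝ) ^ n) * (Real.log ((N : ℝ) ^ n) / 2 - 1 / 2 - Real.log 2 / 2) ≤
      ∑ A ∈ range (N ^ n), Real.log (minM N (N ^ n) A) := by
  have hTeq : ((N : ℝ) ^ n) = ((N ^ n : ℕ) : ℝ) := by push_cast; rfl
  rw [hTeq]
  have hcount := count_minM N n
  have hTpos : 0 < N ^ n := by positivity
  set T := N ^ n with hTdef
  have hT0 : (0 : ℝ) < T := by exact_mod_cast hTpos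
  have h1 := layer_two (range T) (minM N T) (fun A _ => minM_pos N T A)
    (fun m hm => hcount m) (Real.sqrt (T / 2)) (Real.sqrt_pos.2 (by positivity))
  rw [Real.sq_sqrt (by positivity), sum_sub_distrib, sum_const, card_range, nsmul_eq_mul,
    Real.log_sqrt (by positivity), Real.log_div hT0.ne' (by norm_num)] at h1
  nlinarith

end Pool.Agent.Work.MP_68df70_lc
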