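import Mathlib
import Pool.Agent.Work.MP_68df70_lc.Upper

namespace Pool.Agent.Work.MP_68df70_lc

open Finset

theorem win_aux (k : ℕ) : (((k + 2 : ℕ) : ℝ)) * 2 ^ k + 3 / 2 ≤ 7 / 5 * (27 / 10) ^ (k + 1) := by
  induction k with
  | zero => norm_num
  | succ k ih =>
    rcases k with _ | k
    · norm_num
    · have h : (0 : ℝ) ≤ (k : ℝ) := Nat.cast_nonneg k
      have h2 : (0 : ℝ) < 2 ^ k := by positivity
      push_cast at ih ⊢
      rw [pow_succ (27 / 10 : ℝ) (k + 1 + 1)]
      have h3 : (2 : ℝ) ^ (k + 1 + 1) = 4 * 2 ^ k := by ring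
      have h4 : (2 : ℝ) ^ (k + 1) = 2 * 2 ^ k := by ring
      rw [h4] at ih
      rw [h3]
      nlinarith [mul_nonneg h h2.le]

theorem log_win_le (N : ℕ) (hN : 2 ≤ N) :
    Real.log ((win N : ℝ) + 3 / 2) ≤ N.primeFactors.card + 2 / 5 := by
  have hk1 : 1 ≤ N.primeFactors.card := by
    rw [Nat.one_le_iff_ne_zero, Ne, card_eq_zero, Nat.primeFactors_eq_empty]
    omega
  obtain ⟨j, hk⟩ : ∃ j, N.primeFactors.card = j + 1 := ⟨N.primeFactors.card - 1, by omega⟩
  have hw : (win N : ℝ) = ((j + 2 : ℕ) : ℝ) * 2 ^ j := by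
    have : win N = (j + 2) * 2 ^ j := by
      unfold win
      rw [hk, pow_succ]
      rw [show (j + 1 + 1) * (2 ^ j * 2) = ((j + 2) * 2 ^ j) * 2 by ring]
      exact Nat.mul_div_cancel _ (by norm_num)
    rw [this]; push_cast; ring
  rw [hw, hk, Real.log_le_iff_le_exp (by positivity)]
  refine (win_aux j).trans ?_
  rw [Real.exp_add, mul_comm]
  have h1 : (27 / 10 : ℝ) ^ (j + 1) ≤ Real.exp ((j + 1 : ℕ) : ℝ) := by
    have h3 : Real.exp ((j + 1 : ℕ) : ℝ) = (Real.exp 1) ^ (j + 1) := by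
      rw [← Real.exp_nat_mul, mul_one]
    rw [h3]
    apply pow_le_pow_left₀ (by norm_num)
    have := Real.exp_one_gt_d9
    linarith
  have h2 : (7 / 5 : ℝ) ≤ Real.exp (2 / 5) := by
    have := Real.add_one_le_exp (2 / 5 : ℝ)
    linarith
  exact mul_le_mul h1 h2 (by norm_num) (Real.exp_pos _).le

theorem log_three_le : Real.log 3 ≤ 6 / 5 := by
  rw [Real.log_le_iff_le_exp (by norm_num)]
  have h2 : Real.exp (6 / 5 : ℝ) = (Real.exp (3 / 10)) ^ 4 := by
    rw [← Real.exp_nat_mul]; norm_num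
  rw [h2]
  have h5 := Real.quadratic_le_exp_of_nonneg (x := (3 / 10 : ℝ)) (by norm_num)
  have h6 : (1 + 3 / 10 + (3 / 10) ^ 2 / 2 : ℝ) ^ 4 ≤ (Real.exp (3 / 10)) ^ 4 :=
    pow_le_pow_left₀ (by norm_num) h5 4
  refine le_trans ?_ h6
  norm_num

theorem main_lower (N n : ℕ) (hN : 2 ≤ N) :
    (n : ℝ) / 2 - (1 + Real.log 2) / (2 * Real.log N) ≤ avgComplexity N n := by
  have hN1 : (1 : ℝ) < N := by exact_mod_cast (by omega : 1 < N)
  have hlog : 0 < Real.log N := Real.log_pos hN1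
  have hpow : (0 : ℝ) < (N : ℝ) ^ n := by positivity
  rw [avgComplexity_eq N hN n, le_div_iff₀ hpow, le_div_iff₀ hlog]
  refine le_trans (le_of_eq ?_) (lower_sum N n hN)
  rw [Real.log_pow]
  field_simp
  ring

theorem main_upper (N n : ℕ) (hN : 2 ≤ N) :
    avgComplexity N n ≤ (n : ℝ) / 2 + ((N.primeFactors.card : ℝ) + 3 / 2) / Real.log N := by
  have hN1 : (1 : ℝ) < N := by exact_mod_cast (by omega : 1 < N)
  have hlog : 0 < Real.log N := Real.log_pos hN1
  have hpow : (0 : ℝ) < (N : ℝ) ^ n := by positivity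
  rw [avgComplexity_eq N hN n]
  rcases Nat.eq_zero_or_pos n with rfl | hn
  · have h1 : ∑ A ∈ range (N ^ 0), Real.log (minM N (N ^ 0) A) ≤ 0 := by
      simp only [pow_zero, range_one, sum_singleton]
      have h2 : minM N 1 0 ≤ 1 := by
        have := minM_le (N := N) (T := 1) (A := 0) (f := 0) (g := 1)
          ⟨one_pos, isCoprime_one_left, by simp⟩
        simpa using this
      have h3 : (minM N 1 0 : ℝ) ≤ 1 := by exact_mod_cast h2
      exact Real.log_nonpos (Nat.cast_nonneg _) h3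
    have h2 : (∑ A ∈ range (N ^ 0), Real.log (minM N (N ^ 0) A)) / Real.log N / (N : ℝ) ^ 0 ≤ 0 :=
      div_nonpos_of_nonpos_of_nonneg (div_nonpos_of_nonpos_of_nonneg h1 hlog.le) (by positivity)
    refine h2.trans ?_
    positivity
  · rw [div_le_iff₀ hpow, div_le_iff₀ hlog]
    refine (upper_sum N n hN (by omega)).trans ?_
    rw [Real.log_pow]
    have h1 := log_win_le N hN
    have h2 := log_three_le
    have h3 : ((n : ℝ) / 2 + ((N.primeFactors.card : ℝ) + 3 / 2) / Real.log N) * (N : ℝ) ^ n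
        * Real.log N = (N : ℝ) ^ n * (n * Real.log N / 2 + (N.primeFactors.card + 3 / 2)) := by
      field_simp
    rw [h3]
    apply mul_le_mul_of_nonneg_left _ hpow.le
    linarith

theorem omega_le_log (N : ℕ) (hN : 2 ≤ N) :
    (N.primeFactors.card : ℝ) * Real.log 2 ≤ Real.log N := by
  have h1 : 2 ^ N.primeFactors.card ≤ N := by
    calc 2 ^ N.primeFactors.card ≤ ∏ p ∈ N.primeFactors, p :=
          pow_card_le_prod _ _ _ (fun p hp => (Nat.prime_of_mem_primeFactors hp).two_le)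
      _ ≤ N := Nat.le_of_dvd (by omega) (Nat.prod_primeFactors_dvd N)
  have h2 : ((2 : ℝ)) ^ N.primeFactors.card ≤ N := by exact_mod_cast h1
  have h3 := Real.log_le_log (by positivity) h2
  rwa [Real.log_pow] at h3

theorem main_abs (N n : ℕ) (hN : 2 ≤ N) : |avgComplexity N n - (n : ℝ) / 2| ≤ 4 := by
  have hN1 : (1 : ℝ) < N := by exact_mod_cast (by omega : 1 < N)
  have hlog : 0 < Real.log N := Real.log_pos hN1
  have hlog2 : 0 < Real.log 2 := Real.log_pos (by norm_num)
  have hl2 : (0.6931471803 : ℝ) < Real.log 2 := Real.log_two_gt_d9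
  have hle : Real.log 2 ≤ Real.log N :=
    Real.log_le_log (by norm_num) (by exact_mod_cast hN)
  have h1 := main_lower N n hN
  have h2 := main_upper N n hN
  have h3 := omega_le_log N hN
  have h4 : ((N.primeFactors.card : ℝ) + 3 / 2) / Real.log N ≤ 4 := by
    rw [div_le_iff₀ hlog]
    have h5 : (N.primeFactors.card : ℝ) ≤ 3 / 2 * Real.log N := by
      have h6 : (0 : ℝ) ≤ N.primeFactors.card := Nat.cast_nonneg _
      nlinarith
    nlinarith
  have h5 : (1 + Real.log 2) / (2 * Real.log N) ≤ 4 := by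
    rw [div_le_iff₀ (by positivity)]
    nlinarith
  rw [abs_le]
  constructor <;> linarith

end Pool.Agent.Work.MP_68df70_lc
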